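import Pool.Agent.Helper98.EX.Stmts2

/-!
# EX: module FIN, final stage from a state above `zet` to the top state
-/

set_option autoImplicit false

namespace Pool.Agent.Helper98.EX

open Finset

section

variable {N : ℕ} {r l : ℕ → ℝ}

theorem fin_nohit_bds (h : Adm N r l) (S : Finset ℕ) (T : Set (Cfg N)) (m : ℕ) (η : Cfg N) :
    0 ≤ nohit r l S T m η ∧ nohit r l S T m η ≤ 1 := by
  induction m generalizing η with
  | zero =>
    unfold nohit
    exact ⟨by linarith [ind_le_one T η], by linarith [ind_nonneg T η]⟩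
  | succ m ih =>
    unfold nohit
    have h1 := stp_nonneg (S := S) h (fun ξ => (ih ξ).1) η
    have h2 := stp_mono (S := S) h (f := nohit r l S T m) (g := fun _ => 1) (fun ξ => (ih ξ).2) η
    rw [stp_const] at h2
    have h3 := ind_nonneg T η
    have h4 := ind_le_one T η
    exact ⟨mul_nonneg (by linarith) h1, by nlinarith⟩

theorem fin_nohit_succ (h : Adm N r l) (S : Finset ℕ) (T : Set (Cfg N)) (m : ℕ) (η : Cfg N) :
    nohit r l S T (m + 1) η ≤ nohit r l S T m η := by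
  induction m generalizing η with
  | zero =>
    unfold nohit
    have h2 := stp_mono (S := S) h (f := nohit r l S T 0) (g := fun _ => 1)
      (fun ξ => (fin_nohit_bds h S T 0 ξ).2) η
    rw [stp_const] at h2
    have h4 := ind_le_one T η
    nlinarith
  | succ m ih =>
    have h2 := stp_mono (S := S) h (f := nohit r l S T (m + 1)) (g := nohit r l S T m) ih η
    have h4 := ind_le_one T η
    rw [nohit, nohit]
    exact mul_le_mul_of_nonneg_left h2 (by linarith)

theorem fin_nohit_anti (h : Adm N r l) (S : Finset ℕ) (T : Set (Cfg N)) {m n : ℕ} (hmn : m ≤ n)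
    (η : Cfg N) : nohit r l S T n η ≤ nohit r l S T m η := by
  induction hmn with
  | refl => exact le_rfl
  | step _ ih => exact (fin_nohit_succ h S T _ η).trans ih

theorem fin_cnt_true (η : Cfg N) {a b : ℕ} (h : ∀ i, a ≤ i → i < b → occ η i = true) :
    cnt η a b = b - a := by
  unfold cnt
  rw [Finset.sum_congr rfl (g := fun _ => 1) (fun i hi => by
    rw [Finset.mem_Ico] at hi
    rw [if_pos (h i hi.1 hi.2)])]
  simp

theorem fin_cnt_false (η : Cfg N) {a b : ℕ} (h : ∀ i, a ≤ i → i < b → occ η i = false) :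
    cnt η a b = 0 := by
  unfold cnt
  refine Finset.sum_eq_zero fun i hi => ?_
  rw [Finset.mem_Ico] at hi
  rw [h i hi.1 hi.2]
  simp

theorem fin_ht_true (η : Cfg N) {a : ℕ} (ha : a ≤ N) (h : ∀ i, a ≤ i → i < N → occ η i = true) :
    ht η a = N - a := by
  rw [ht_cnt η ha le_rfl, ht_ge (le_refl N), add_zero, fin_cnt_true η h]

/-- the sorted event is increasing -/
theorem fin_inc (k q1 q2 : ℕ) : Inc k (ind (sorted 0 q1 q2 N : Set (Cfg N))) := by
  apply pr_Inc_ind
  intro η ξ hη hξ hle ⟨s1, s2⟩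
  constructor
  · intro i hi0 hi
    by_cases hN : i < N
    · have e1 : ht η 0 = ht η (i + 1) := by
        rw [ht_cnt η (Nat.zero_le (i + 1)) hN,
          fin_cnt_false η (fun j _ hj => s1 j (Nat.zero_le j) (by omega)), zero_add]
      have e2 := hle (i + 1)
      have e3 := ht_anti ξ (Nat.zero_le i)
      have e4 := ht_succ_le ξ i
      rw [not_occ_iff_ht ξ hN]
      omega
    · exact occ_ge (by omega)
  · intro i hi hN
    have e1 : ht η i = N - i := fin_ht_true η hN.le (fun j hj hjN => s2 j (by omega) hjN)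
    have e2 := hle i
    have e3 := ht_le ξ i
    have e4 := ht_le_succ ξ i
    have e5 := ht_le ξ (i + 1)
    rw [occ_iff_ht ξ hN]
    omega

/-- sites outside the window are frozen -/
theorem fin_frozen (hLOC : ST_LOC) (h : Adm N r l) (σ : ℕ → Finset ℕ) (m a b q1 q2 : ℕ)
    (η : Cfg N) (hσ : ∀ i, σ i ⊆ Finset.Ioo a b) (h1 : ∀ i, i < a → occ η i = false)
    (h2 : ∀ i, b ≤ i → i < N → occ η i = true) :
    pr r l σ m (sorted 0 q1 q2 N)ᶜ η ≤ pr r l σ m (sorted a q1 q2 b)ᶜ η := by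
  have hsub : (sorted 0 q1 q2 N : Set (Cfg N))ᶜ ⊆ (sorted a q1 q2 b)ᶜ ∪
      ⋃ x ∈ (Finset.range N).filter (fun x => x < a ∨ b ≤ x), {ξ | occ ξ x ≠ occ η x} := by
    intro ξ hξ
    by_contra hcon
    rw [Set.mem_union, not_or] at hcon
    obtain ⟨c1, c2⟩ := hcon
    rw [Set.mem_compl_iff, not_not] at c1
    have c3 : ∀ x, x < N → (x < a ∨ b ≤ x) → occ ξ x = occ η x := by
      intro x hx hx2
      by_contra hne
      apply c2
      rw [Set.mem_iUnion₂]
      exact ⟨x, by rw [Finset.mem_filter, Finset.mem_range]; exact ⟨hx, hx2⟩, hne⟩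
    apply hξ
    constructor
    · intro i _ hi
      by_cases hN : i < N
      · by_cases ha : i < a
        · rw [c3 i hN (Or.inl ha), h1 i ha]
        · exact c1.1 i (by omega) hi
      · exact occ_ge (by omega)
    · intro i hi hN
      by_cases hb : i < b
      · exact c1.2 i hi hb
      · rw [c3 i hN (Or.inr (by omega)), h2 i (by omega) hN]
  refine (pr_mono h σ m hsub η).trans ((pr_union h σ m _ _ η).trans ?_)
  have hz : pr r l σ m (⋃ x ∈ (Finset.range N).filter (fun x => x < a ∨ b ≤ x),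
      {ξ | occ ξ x ≠ occ η x}) η ≤ 0 := by
    refine (pr_biUnion h σ m _ _ η).trans (Finset.sum_nonpos fun x hx => ?_)
    rw [Finset.mem_filter] at hx
    refine (hLOC.1 N r l σ m x η fun i => ?_).le
    constructor
    · intro hh
      have := Finset.mem_Ioo.mp (hσ i hh)
      omega
    · intro hh
      have := Finset.mem_Ioo.mp (hσ i hh)
      omega
  linarith

theorem fin_cntw {k w : ℕ} (hk : k ≤ N) (_hw1 : w ≤ N - k) (hw2 : N - k + w ≤ N) (ξ : Cfg N)
    (hξ : ht ξ 0 = k) (hs : ξ ∈ (sorted 0 (N - k - w) (N - k + w) N : Set (Cfg N))) :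
    cnt ξ (N - k - w) (N - k + w) = N - k + w - (N - k) := by
  have e1 := ht_cnt ξ (Nat.zero_le (N - k - w)) (by omega)
  rw [fin_cnt_false ξ (fun j hj hj2 => hs.1 j hj hj2)] at e1
  have e2 := ht_cnt ξ (show N - k - w ≤ N - k + w by omega) hw2
  have e3 := fin_ht_true ξ hw2 (fun j hj hj2 => hs.2 j hj hj2)
  omega

theorem fin_occ_zet {A B x0 n i : ℕ} (hi : i < N) :
    occ (zet N A B x0 n) i = true ↔ ((A ≤ i ∧ i < A + n) ∨ (x0 ≤ i ∧ i + n < B) ∨
      (x0 ≤ i ∧ B ≤ i)) := by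
  rw [occ_lt hi]
  unfold zet
  simp

theorem fin_occ_zet_false {A B x0 n i : ℕ} (hi : i < N)
    (h : ¬ ((A ≤ i ∧ i < A + n) ∨ (x0 ≤ i ∧ i + n < B) ∨ (x0 ≤ i ∧ B ≤ i))) :
    occ (zet N A B x0 n) i = false := by
  rw [← Bool.not_eq_true, fin_occ_zet hi]
  exact h

theorem fin_ht_zet {A B x0 n : ℕ} (h1 : A + n ≤ x0) (h2 : x0 + n ≤ B) (h3 : B ≤ N) :
    ht (zet N A B x0 n) 0 = N - x0 := by
  set z := zet N A B x0 n with hz
  have e1 := ht_cnt z (Nat.zero_le A) (by omega)
  have e2 := ht_cnt z (show A ≤ A + n by omega) (by omega)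
  have e3 := ht_cnt z h1 (by omega)
  have e4 := ht_cnt z (show x0 ≤ B - n by omega) (by omega)
  have e5 := ht_cnt z (show B - n ≤ B by omega) h3
  have e6 := fin_ht_true z h3 (fun i hi hi2 => by
    rw [hz, fin_occ_zet hi2]; omega)
  rw [fin_cnt_false z (fun i _ hi2 => fin_occ_zet_false (by omega) (by omega))] at e1
  rw [fin_cnt_true z (fun i hi hi2 => by rw [hz, fin_occ_zet (by omega)]; omega)] at e2
  rw [fin_cnt_false z (fun i _ hi2 => fin_occ_zet_false (by omega) (by omega))] at e3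
  rw [fin_cnt_true z (fun i hi hi2 => by rw [hz, fin_occ_zet (by omega)]; omega)] at e4
  rw [fin_cnt_false z (fun i _ hi2 => fin_occ_zet_false (by omega) (by omega))] at e5
  omega

theorem fin_RR_nonneg (h : Adm N r l) {z x : ℕ} (hx : x < N) : 0 ≤ RR r l z x := by
  unfold RR
  refine Finset.prod_nonneg fun b hb => ?_
  rw [Finset.mem_Ioc] at hb
  have := h b (by omega) (by omega)
  exact div_nonneg this.2.2.1 this.1.le

theorem fin_atl_nonneg (h : Adm N r l) {η0 : ℝ} (hη : 0 ≤ η0) {w y : ℕ} (hy : y + 1 < N) :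
    0 ≤ atl r l η0 w y := by
  unfold atl
  refine Finset.sum_nonneg fun d _ => ?_
  have h1 := fin_RR_nonneg h (z := y - d) (show y < N by omega)
  have h2 := (h (y + 1) (by omega) hy).1
  positivity

end

theorem fin_num (γ Cs e0 : ℝ) (hγ : 0 < γ) (he : 0 < e0) : ∃ N0 : ℕ, ∀ (N w mQ : ℕ), N0 ≤ N →
    (w : ℝ) ≤ Real.log N ^ 2 → 1 ≤ w → 2 * N * (N : ℝ) ^ γ ≤ mQ →
    Real.exp (Cs + (2 * (w : ℝ)) ^ 2 * Real.log (1 / (N : ℝ) ^ (-100 : ℝ)) -
      mQ * (N : ℝ) ^ (-(γ / 10)) /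
        (2 * N * (16 * (2 * (w : ℝ)) ^ 4 * ((N : ℝ) ^ (γ / 10)) ^ 2 * Real.exp Cs))) ≤ e0 / 4 ∧
    (N : ℝ) ^ (-5 : ℝ) ≤ e0 / 4 := by
  set K : ℝ := 256 * Real.exp Cs * (|Cs| + 400 + |Real.log (e0 / 4)|) with hK
  have hK0 : 0 < K := by positivity
  have h1 : ∀ᶠ x : ℝ in Filter.atTop, K * Real.log x ^ (13 : ℕ) ≤ x ^ (7 * γ / 10) := by
    have hs : 0 < 7 * γ / 10 := by positivity
    have ho := isLittleO_log_rpow_rpow_atTop (13 : ℝ) hs
    have hb := ho.bound (inv_pos.mpr hK0)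
    filter_upwards [hb, Filter.eventually_ge_atTop (1 : ℝ)] with x hx hx1
    have hl : 0 ≤ Real.log x := Real.log_nonneg hx1
    rw [Real.norm_of_nonneg (by positivity), Real.norm_of_nonneg (by positivity)] at hx
    have e13 : Real.log x ^ (13 : ℝ) = Real.log x ^ (13 : ℕ) := by
      rw [← Real.rpow_natCast]; norm_num
    rw [e13] at hx
    rw [← le_inv_mul_iff₀ hK0]
    exact hx
  have h2 : ∀ᶠ x : ℝ in Filter.atTop, 1 ≤ Real.log x :=
    Real.tendsto_log_atTop.eventually_ge_atTop 1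
  have h3 : ∀ᶠ x : ℝ in Filter.atTop, 4 / e0 ≤ x := Filter.eventually_ge_atTop _
  have h4 : ∀ᶠ x : ℝ in Filter.atTop, 1 ≤ x := Filter.eventually_ge_atTop _
  have hall := (h1.and (h2.and (h3.and h4)))
  have hN := tendsto_natCast_atTop_atTop (R := ℝ) |>.eventually hall
  obtain ⟨N0, hN0⟩ := Filter.eventually_atTop.mp hN
  refine ⟨N0, fun N w mQ hNN hw hw1 hmQ => ?_⟩
  obtain ⟨a1, a2, a3, a4⟩ := hN0 N hNN
  have hNpos : (0 : ℝ) < N := by linarith
  have hw1' : (1 : ℝ) ≤ w := by exact_mod_cast hw1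
  set L := Real.log (N : ℝ) with hL
  constructor
  · -- the exponent
    have hlog : Real.log (1 / (N : ℝ) ^ (-100 : ℝ)) = 100 * L := by
      rw [one_div, Real.log_inv, Real.log_rpow hNpos]
      ring
    rw [hlog]
    set a := (N : ℝ) ^ (-(γ / 10)) with ha
    set b := (N : ℝ) ^ (γ / 10) with hb
    have hapos : 0 < a := Real.rpow_pos_of_pos hNpos _
    have hbpos : 0 < b := Real.rpow_pos_of_pos hNpos _
    have hab : (N : ℝ) ^ γ * a = (N : ℝ) ^ (7 * γ / 10) * b ^ 2 := by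
      rw [ha, hb, ← Real.rpow_natCast, ← Real.rpow_mul hNpos.le, ← Real.rpow_add hNpos,
        ← Real.rpow_add hNpos]
      congr 1
      push_cast
      ring
    have hw4 : (w : ℝ) ^ 4 ≤ L ^ 8 := by
      calc (w : ℝ) ^ 4 ≤ (L ^ 2) ^ 4 := by gcongr
        _ = L ^ 8 := by ring
    have hw2 : (w : ℝ) ^ 2 ≤ L ^ 4 := by
      calc (w : ℝ) ^ 2 ≤ (L ^ 2) ^ 2 := by gcongr
        _ = L ^ 4 := by ring
    have hT : |Cs| + 400 * L ^ 5 + |Real.log (e0 / 4)| ≤
        mQ * a / (2 * N * (16 * (2 * (w : ℝ)) ^ 4 * b ^ 2 * Real.exp Cs)) := by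
      rw [le_div_iff₀ (by positivity)]
      have s1 : |Cs| + 400 * L ^ 5 + |Real.log (e0 / 4)| ≤
          (|Cs| + 400 + |Real.log (e0 / 4)|) * L ^ 5 := by
        have hL5 : 1 ≤ L ^ 5 := one_le_pow₀ a2
        nlinarith [abs_nonneg Cs, abs_nonneg (Real.log (e0 / 4))]
      calc (|Cs| + 400 * L ^ 5 + |Real.log (e0 / 4)|) *
            (2 * N * (16 * (2 * (w : ℝ)) ^ 4 * b ^ 2 * Real.exp Cs))
          ≤ ((|Cs| + 400 + |Real.log (e0 / 4)|) * L ^ 5) *
            (2 * N * (16 * (2 * (w : ℝ)) ^ 4 * b ^ 2 * Real.exp Cs)) := by gcongr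
        _ = (2 * N * b ^ 2) * ((256 * Real.exp Cs * (|Cs| + 400 + |Real.log (e0 / 4)|)) *
              (L ^ 5 * (w : ℝ) ^ 4)) := by ring
        _ ≤ (2 * N * b ^ 2) * ((256 * Real.exp Cs * (|Cs| + 400 + |Real.log (e0 / 4)|)) *
              (L ^ 5 * L ^ 8)) := by gcongr
        _ = (2 * N * b ^ 2) * (K * L ^ 13) := by rw [hK]; ring
        _ ≤ (2 * N * b ^ 2) * (N : ℝ) ^ (7 * γ / 10) := by gcongr
        _ = (2 * N * (N : ℝ) ^ γ) * a := by
            rw [mul_assoc (2 * (N : ℝ)), mul_comm (b ^ 2), ← hab]; ring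
        _ ≤ mQ * a := by gcongr
    have hE : Cs + (2 * (w : ℝ)) ^ 2 * (100 * L) -
        mQ * a / (2 * N * (16 * (2 * (w : ℝ)) ^ 4 * b ^ 2 * Real.exp Cs)) ≤
        Real.log (e0 / 4) := by
      have s2 : (2 * (w : ℝ)) ^ 2 * (100 * L) ≤ 400 * L ^ 5 := by
        have : (w : ℝ) ^ 2 * L ≤ L ^ 4 * L := by gcongr
        nlinarith
      have s3 := le_abs_self Cs
      have s4 := neg_abs_le (Real.log (e0 / 4))
      linarith
    calc Real.exp _ ≤ Real.exp (Real.log (e0 / 4)) := Real.exp_le_exp.mpr hE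
      _ = e0 / 4 := Real.exp_log (by positivity)
  · have s1 : (N : ℝ) ^ (-5 : ℝ) ≤ (N : ℝ) ^ (-1 : ℝ) :=
      Real.rpow_le_rpow_of_exponent_le a4 (by norm_num)
    rw [Real.rpow_neg_one] at s1
    refine s1.trans ?_
    rw [inv_le_comm₀ hNpos (by positivity)]
    rw [inv_div]
    exact a3

theorem st_FIN (hST : ST_STREAM) (hQ : ST_Q) (hC : ST_CENS) (hR : ST_RATE) (hL : ST_LOC)
    (hH : ST_HITGEO) (hLH : ST_LOCHIT) : ST_FIN := by
  intro γ η0 Cs c1 e0 m0 hγ hγ1 hη0 hη1 hCs hc1 hc11 he0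
  obtain ⟨N1, hS⟩ := hST γ 1 η0 Cs hγ hγ1 one_pos le_rfl hη0 hη1 hCs
  obtain ⟨N2, hN2⟩ := fin_num γ Cs e0 hγ he0
  set c : ℝ := (c1 / (4 * ((m0 : ℝ) + 1))) ^ (m0 ^ 2) with hc
  have hcq : c1 / (4 * ((m0 : ℝ) + 1)) ≤ 1 := by
    rw [div_le_one (by positivity)]
    have : (0 : ℝ) ≤ m0 := Nat.cast_nonneg _
    linarith
  have hcpos : 0 < c := by positivity
  have hcle : c ≤ 1 := pow_le_one₀ (by positivity) hcq
  obtain ⟨J, hJ⟩ := exists_pow_lt_of_lt_one (show (0 : ℝ) < e0 / 2 by positivity)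
    (show 1 - c < 1 by linarith)
  refine ⟨max (max N1 N2) 1, (J : ℝ) * m0 ^ 2 * (1 / c1 + 1) + 1, by positivity, ?_⟩
  intro N k r l l' A B w n m as ell e hNN hkN hAdm hE hll hm0w hn hAn hnB has hell htail hloc he hpr
  have hN1 : N1 ≤ N := le_trans (le_trans (le_max_left _ _) (le_max_left _ _)) hNN
  have hN2' : N2 ≤ N := le_trans (le_trans (le_max_right _ _) (le_max_left _ _)) hNN
  have hNge : 1 ≤ N := le_trans (le_max_right _ _) hNN
  have hNR : (1 : ℝ) ≤ N := by exact_mod_cast hNge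
  have hAdm' : Adm N r l' := hE.adm
  have hPos' : Pos N l' := fun x h1 h2 => lt_of_lt_of_le
    (Real.rpow_pos_of_pos (by linarith) _) (hE.low x h1 h2)
  have hA3 := hE.hA
  have hB3 := hE.hB
  have hBN := hE.hBN
  have hw1 := hE.w1
  obtain ⟨σS, mS, hσS, hmS, hpS⟩ := hS N r l' A (N - k) B w n as ell hN1 hE hn hAn hnB has hell
  rw [Nat.sub_sub_self hkN] at hmS
  set M : ℝ := max (∑ y ∈ Finset.Ico A (N - k), atl r l' η0 w y)
      (∑ y ∈ Finset.Ico (N - B) k, atl (mirr N r) (mirr N l') η0 w y) with hM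
  have hM0 : 0 ≤ M := by
    refine le_trans ?_ (le_max_left _ _)
    refine Finset.sum_nonneg fun y hy => ?_
    rw [Finset.mem_Ico] at hy
    exact fin_atl_nonneg hAdm' hη0.le (by omega)
  have hNγ : (1 : ℝ) ≤ (N : ℝ) ^ γ := Real.one_le_rpow hNR hγ.le
  have hell1 : (N : ℝ) ^ γ ≤ ell := by
    refine le_trans ?_ hell
    nlinarith
  have hell0 : 0 ≤ ell := by linarith
  set mQ : ℕ := ⌈2 * (N : ℝ) * ell⌉₊ with hmQ
  have hmQ1 : 2 * (N : ℝ) * (N : ℝ) ^ γ ≤ mQ := by
    refine le_trans ?_ (Nat.le_ceil _)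
    gcongr
  have hmQ2 : (mQ : ℝ) ≤ 2 * N * ell + 1 := (Nat.ceil_lt_add_one (by positivity)).le
  obtain ⟨hexp, hN5⟩ := hN2 N w mQ hN2' hE.wlog hw1 hmQ1
  set S : Set (Cfg N) := sorted 0 (N - k - m0) (N - k + m0) N with hSdef
  set σQ : ℕ → Finset ℕ := fun _ => Finset.Ioo (N - k - w) (N - k + w) with hσQ
  set zt : Cfg N := zet N A B (N - k) n with hzt
  have hzt0 : ht zt 0 = k := by
    rw [hzt, fin_ht_zet hAn hnB hBN, Nat.sub_sub_self hkN]
  -- first stage from zt
  have st1 : pr r l' σS mS (sorted 0 (N - k - w) (N - k + w) N)ᶜ zt ≤ e0 / 4 := by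
    refine (fin_frozen hL hAdm' σS mS A B _ _ zt hσS ?_ ?_).trans ((hpS zt ?_).trans hN5)
    · intro i hi
      exact fin_occ_zet_false (by omega) (by omega)
    · intro i hi hiN
      rw [hzt, fin_occ_zet hiN]
      omega
    · intro i hi1 hi2
      rw [hzt, fin_occ_zet (by omega)]
      omega
  -- second stage
  have st2 : ∀ ξ : Cfg N, ht ξ 0 = k → ξ ∈ (sorted 0 (N - k - w) (N - k + w) N : Set (Cfg N)) →
      pr r l' σQ mQ Sᶜ ξ ≤ e0 / 4 + e0 := by
    intro ξ hξ hs
    have f1 := fin_frozen hL hAdm' σQ mQ (N - k - w) (N - k + w) (N - k - m0) (N - k + m0) ξ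
      (fun i => le_rfl) (fun i hi => hs.1 i (Nat.zero_le i) hi) (fun i hi hi2 => hs.2 i hi hi2)
    refine f1.trans ?_
    have hRR : ∀ z x, x < N → 0 ≤ RR r l' z x := fun z x hx => fin_RR_nonneg hAdm' hx
    have q := hQ N r l' (Finset.Ioo (N - k - w) (N - k + w)) (N - k - w) (N - k - m0) (N - k)
      (N - k + m0) (N - k + w) mQ ((N : ℝ) ^ (γ / 10)) ((N : ℝ) ^ (-(γ / 10)))
      ((N : ℝ) ^ (-100 : ℝ)) Cs ξ hAdm' hPos' (by omega) (by omega) (by omega) (by omega)
      (by omega) (by omega) (by simp) (by simp) (fun x h1 h2 => Finset.mem_Ioo.mpr ⟨h1, h2⟩)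
      (Real.rpow_pos_of_pos (by linarith) _) (Real.rpow_pos_of_pos (by linarith) _)
      (Real.rpow_le_one_of_one_le_of_nonpos hNR (by norm_num))
      (fun b hb1 hb2 => ⟨hE.rlow b (by omega) (by omega), hE.low b (by omega) (by omega)⟩)
      (Real.one_le_rpow hNR (by positivity))
      (fun z x h1 h2 h3 => hE.near z x (by omega) h2 (by omega))
      (by
        refine le_trans (add_le_add ?_ ?_) hE.zs
        · refine Finset.sum_le_sum_of_subset_of_nonneg ?_ ?_
          · intro y hy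
            rw [Finset.mem_Ico] at hy ⊢
            omega
          · intro y hy _
            exact hRR y _ (by omega)
        · refine Finset.sum_le_sum_of_subset_of_nonneg ?_ ?_
          · intro y hy
            rw [Finset.mem_Ico] at hy ⊢
            omega
          · intro y hy _
            rw [Finset.mem_Ico] at hy
            exact hRR _ y (by omega))
      (fin_cntw hkN (by omega) (by omega) ξ hξ hs)
    refine q.trans (add_le_add ?_ ?_)
    · have e1 : (((N - k + w : ℕ) : ℝ) - ((N - k - w : ℕ) : ℝ)) = 2 * (w : ℝ) := by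
        rw [Nat.cast_sub (show w ≤ N - k by omega)]
        push_cast
        ring
      rw [e1]
      exact hexp
    · refine le_trans (add_le_add ?_ ?_) htail
      · refine le_trans (Finset.sum_le_sum (g := fun z => ∑ x ∈ Finset.Ico (N - k) N, RR r l' z x)
          fun z hz => ?_) ?_
        · refine Finset.sum_le_sum_of_subset_of_nonneg ?_ ?_
          · intro y hy
            rw [Finset.mem_Ico] at hy ⊢
            omega
          · intro y hy _
            rw [Finset.mem_Ico] at hy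
            exact hRR _ y (by omega)
        · refine Finset.sum_le_sum_of_subset_of_nonneg ?_ ?_
          · intro y hy
            rw [Finset.mem_Ico] at hy ⊢
            omega
          · intro y hy _
            refine Finset.sum_nonneg fun x hx => ?_
            rw [Finset.mem_Ico] at hx
            exact hRR _ x (by omega)
      · refine le_trans (Finset.sum_le_sum
          (g := fun z => ∑ x ∈ Finset.Ico (N - k + m0) N, RR r l' z x) fun z hz => ?_) ?_
        · refine Finset.sum_le_sum_of_subset_of_nonneg ?_ ?_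
          · intro y hy
            rw [Finset.mem_Ico] at hy ⊢
            omega
          · intro y hy _
            rw [Finset.mem_Ico] at hy
            exact hRR _ y (by omega)
        · refine Finset.sum_le_sum_of_subset_of_nonneg ?_ ?_
          · intro y hy
            rw [Finset.mem_Ico] at hy ⊢
            omega
          · intro y hy _
            refine Finset.sum_nonneg fun x hx => ?_
            rw [Finset.mem_Ico] at hx
            exact hRR _ x (by omega)
  set σ2 : ℕ → Finset ℕ := cat mS σS σQ with hσ2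
  have hIncS : Inc k (ind S) := fin_inc k _ _
  have st3 : pr r l' σ2 (mS + mQ) Sᶜ zt ≤ e0 / 4 + (e0 / 4 + e0) :=
    pr_cat_fail hAdm' σS σQ mS mQ hzt0 st1 (by linarith) st2
  have st4 : ∀ ξ : Cfg N, ht ξ 0 = k → hle 0 zt ξ →
      1 - 3 / 2 * e0 ≤ ev r l' σ2 (mS + mQ) (ind S) ξ := by
    intro ξ hξ hh
    have h1 := ev_inc hAdm' hIncS σ2 (mS + mQ) zt ξ hzt0 hξ hh
    rw [pr_compl] at st3
    unfold pr at st3
    linarith
  have hbot : ht (bot N k) 0 = k := ht_bot_zero hkN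
  have st5 : pr r l (fun _ => full N) (m + (mS + mQ)) Sᶜ (bot N k) ≤ e + 3 / 2 * e0 := by
    rw [pr_compl]
    unfold pr
    have hcens := hC N k r l (fun _ => full N) (cat m (fun _ => full N) σ2) (m + (mS + mQ))
      (ind S) hkN hAdm (by
        intro i
        unfold cat
        split_ifs with h1
        · exact le_rfl
        · rw [hσ2]
          unfold cat
          split_ifs with h2
          · refine (hσS _).trans ?_
            intro y hy
            rw [Finset.mem_Ioo] at hy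
            unfold full
            rw [Finset.mem_Ico]
            omega
          · intro y hy
            rw [hσQ, Finset.mem_Ioo] at hy
            unfold full
            rw [Finset.mem_Ico]
            omega) hIncS
    rw [ev_cat] at hcens
    have hrate : ev r l (fun _ => full N) m (fun ξ => (1 - 3 / 2 * e0) -
        ind {ξ | ¬ hle 0 zt ξ} ξ) (bot N k) ≤
        ev r l (fun _ => full N) m (ev r l σ2 (mS + mQ) (ind S)) (bot N k) := by
      refine ev_mono_sector hAdm ?_ _ m hbot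
      intro ξ hξ
      have r1 := hR N k r l l' σ2 (mS + mQ) (ind S) ξ hAdm hAdm' hll hIncS hξ
      by_cases hz : hle 0 zt ξ
      · have r2 := st4 ξ hξ hz
        rw [ind_of_not_mem (by simpa using hz)]
        linarith
      · rw [ind_of_mem (show ξ ∈ {ξ | ¬ hle 0 zt ξ} from hz)]
        have r3 := ev_nonneg hAdm' (ind_nonneg S) σ2 (mS + mQ) ξ
        linarith
    rw [ev_sub (r := r) (l := l) (fun _ => full N) m (fun _ => (1 - 3 / 2 * e0))
      (ind {ξ | ¬ hle 0 zt ξ}), ev_const] at hrate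
    unfold pr at hpr
    linarith
  have hb0 : ∀ η ∈ S, ht η 0 = k →
      nohit r l (full N) {top N k} (m0 ^ 2 * ⌈2 * (N : ℝ) / c1⌉₊) η ≤ 1 - c := by
    intro η hη hηk
    exact hLH N k r l m0 _ c1 η hNge hkN hAdm hηk hη hc1 hc11 hloc le_rfl
  have hgeo := hH N k r l S (m0 ^ 2 * ⌈2 * (N : ℝ) / c1⌉₊) (m + (mS + mQ)) J c
    (e + 3 / 2 * e0) hkN hAdm hIncS hcpos.le hcle (by linarith) hb0 st5
  have htime : m + (mS + mQ) + J * (m0 ^ 2 * ⌈2 * (N : ℝ) / c1⌉₊) ≤
      m + ⌈2 * (N : ℝ) * (16 * (M + (3 * n + 5) * ell) +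
        ((J : ℝ) * m0 ^ 2 * (1 / c1 + 1) + 1))⌉₊ := by
    rw [add_assoc]
    refine Nat.add_le_add_left ?_ m
    rw [← Nat.cast_le (α := ℝ)]
    refine le_trans ?_ (Nat.le_ceil _)
    push_cast
    have hce : ((⌈2 * (N : ℝ) / c1⌉₊ : ℕ) : ℝ) ≤ 2 * (N : ℝ) / c1 + 1 :=
      (Nat.ceil_lt_add_one (by positivity)).le
    have hce2 : ((⌈2 * (N : ℝ) / c1⌉₊ : ℕ) : ℝ) ≤ 2 * N * (1 / c1 + 1) := by
      refine hce.trans ?_
      have : 2 * (N : ℝ) * (1 / c1 + 1) = 2 * N / c1 + 2 * N := by ring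
      rw [this]
      linarith
    have t1 : (J : ℝ) * ((m0 : ℝ) ^ 2 * ((⌈2 * (N : ℝ) / c1⌉₊ : ℕ) : ℝ)) ≤
        (J : ℝ) * ((m0 : ℝ) ^ 2 * (2 * N * (1 / c1 + 1))) := by gcongr
    have t2 : (mS : ℝ) + mQ ≤ 2 * N * (16 * (M + (3 * n + 5) * ell) + 1) := by
      have hn0 : (0 : ℝ) ≤ n := Nat.cast_nonneg _
      have u1 : (mS : ℝ) + mQ ≤ 2 * N * ((1 + 1) ^ 3 * (M + (3 * n + 4) * ell)) +
          (2 * N * ell + 1) := add_le_add hmS hmQ2
      refine u1.trans ?_
      have u2 : 0 ≤ (N : ℝ) * M := by positivity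
      have u3 : 0 ≤ (N : ℝ) * ell := by positivity
      have u4 : 0 ≤ (N : ℝ) * ell * n := by positivity
      nlinarith
    have t3 : 2 * (N : ℝ) * (16 * (M + (3 * n + 5) * ell) +
        ((J : ℝ) * m0 ^ 2 * (1 / c1 + 1) + 1)) =
        2 * N * (16 * (M + (3 * n + 5) * ell) + 1) +
          (J : ℝ) * ((m0 : ℝ) ^ 2 * (2 * N * (1 / c1 + 1))) := by ring
    rw [t3]
    linarith
  refine (fin_nohit_anti hAdm _ _ htime _).trans (hgeo.trans ?_)
  linarith

end Pool.Agent.Helper98.EX
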